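import Mathlib

namespace Pool.Agent.Results.MP_d2cf4a_al.Counterexample

open Module Module.End

variable {K V : Type} [Field K] [AddCommGroup V] [Module K V]

/-- `A` is diagonalizable and `θ 0, …, θ d` lists its distinct eigenvalues. -/
def IsEigenOrdering (A : End K V) {d : ℕ} (θ : Fin (d + 1) → K) : Prop :=
  Function.Injective θ ∧ (∀ i, A.HasEigenvalue (θ i)) ∧ ⨆ i, A.eigenspace (θ i) = ⊤

/-- `B V_i ⊆ V_0 + ⋯ + V_(i+1)` for the eigenspaces `V_i` of `A` in the order `θ`. -/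
def Hess (A B : End K V) {d : ℕ} (θ : Fin (d + 1) → K) : Prop :=
  ∀ i, (A.eigenspace (θ i)).map B ≤ ⨆ (j : Fin (d + 1)) (_ : j.val ≤ i.val + 1), A.eigenspace (θ j)

/-- No common invariant subspace other than `0` and `V`. -/
def Irred (A B : End K V) : Prop :=
  ∀ W : Submodule K V, W.map A ≤ W → W.map B ≤ W → W = ⊥ ∨ W = ⊤

def fA : End ℚ (Fin 5 → ℚ) := Matrix.toLin'
  !![2, 0, 0, 0, 0; 1, 1, 0, 0, 0; 0, 0, 1, 0, 0; 0, 1, 0, 0, 0; 0, 0, 1, 0, 0]

def fB : End ℚ (Fin 5 → ℚ) := Matrix.toLin'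
  !![0, 1, 0, 0, 0; 0, 1, 0, 0, 1; 0, 0, 1, 1, 0; 0, 0, 0, 2, 0; 0, 0, 0, 0, 2]

theorem fA_apply (x : Fin 5 → ℚ) : fA x = ![2 * x 0, x 0 + x 1, x 2, x 1, x 2] := by
  ext i
  fin_cases i <;> simp [fA, Matrix.mulVec, dotProduct, Fin.sum_univ_succ]

theorem fB_apply (x : Fin 5 → ℚ) : fB x = ![x 1, x 1 + x 4, x 2 + x 3, 2 * x 3, 2 * x 4] := by
  ext i
  fin_cases i <;> simp [fB, Matrix.mulVec, dotProduct, Fin.sum_univ_succ]

theorem memA0 (a b : ℚ) : ![0, 0, 0, a, b] ∈ fA.eigenspace 0 := by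
  rw [mem_eigenspace_iff, fA_apply]; ext i; fin_cases i <;> simp
theorem memA1 (a b : ℚ) : ![0, a, b, a, b] ∈ fA.eigenspace 1 := by
  rw [mem_eigenspace_iff, fA_apply]; ext i; fin_cases i <;> simp
theorem memA2 (a : ℚ) : ![2 * a, 2 * a, 0, a, 0] ∈ fA.eigenspace 2 := by
  rw [mem_eigenspace_iff, fA_apply]; ext i; fin_cases i <;> simp; ring
theorem memB0 (a : ℚ) : ![a, 0, 0, 0, 0] ∈ fB.eigenspace 0 := by
  rw [mem_eigenspace_iff, fB_apply]; ext i; fin_cases i <;> simp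
theorem memB1 (a b : ℚ) : ![a, a, b, 0, 0] ∈ fB.eigenspace 1 := by
  rw [mem_eigenspace_iff, fB_apply]; ext i; fin_cases i <;> simp
theorem memB2 (a b : ℚ) : ![b, 2 * b, a, a, 2 * b] ∈ fB.eigenspace 2 := by
  rw [mem_eigenspace_iff, fB_apply]; ext i; fin_cases i <;> simp <;> ring

theorem A0_eq {x : Fin 5 → ℚ} (h : x ∈ fA.eigenspace 0) : x = ![0, 0, 0, x 3, x 4] := by
  rw [mem_eigenspace_iff, fA_apply] at h
  have h0 := congrFun h 0
  have h2 := congrFun h 2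
  have h3 := congrFun h 3
  simp at h0 h2 h3
  ext i; fin_cases i <;> simp [h0, h2, h3]

theorem B0_eq {x : Fin 5 → ℚ} (h : x ∈ fB.eigenspace 0) : x = ![x 0, 0, 0, 0, 0] := by
  rw [mem_eigenspace_iff, fB_apply] at h
  have h0 := congrFun h 0
  have h2 := congrFun h 2
  have h3 := congrFun h 3
  have h4 := congrFun h 4
  simp at h0 h2 h3 h4
  rw [h3, add_zero] at h2
  ext i; fin_cases i <;> simp [h0, h2, h3, h4]

def th : Fin 3 → ℚ := ![0, 1, 2]

theorem topA : ⨆ i, fA.eigenspace (th i) = ⊤ := by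
  refine eq_top_iff.2 fun x _ => ?_
  have : x = ![0, 0, 0, x 3 - x 1 + x 0 / 2, x 4 - x 2] + ![0, x 1 - x 0, x 2, x 1 - x 0, x 2]
      + ![2 * (x 0 / 2), 2 * (x 0 / 2), 0, x 0 / 2, 0] := by
    ext i; fin_cases i <;> simp <;> ring
  rw [this]
  exact add_mem (add_mem (Submodule.mem_iSup_of_mem 0 (memA0 _ _))
    (Submodule.mem_iSup_of_mem 1 (memA1 _ _))) (Submodule.mem_iSup_of_mem 2 (memA2 _))

theorem topB : ⨆ i, fB.eigenspace (th i) = ⊤ := by
  refine eq_top_iff.2 fun x _ => ?_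
  have : x = ![x 0 - x 1 + x 4 / 2, 0, 0, 0, 0] + ![x 1 - x 4, x 1 - x 4, x 2 - x 3, 0, 0]
      + ![x 4 / 2, 2 * (x 4 / 2), x 3, x 3, 2 * (x 4 / 2)] := by
    ext i; fin_cases i <;> simp <;> ring
  rw [this]
  exact add_mem (add_mem (Submodule.mem_iSup_of_mem 0 (memB0 _))
    (Submodule.mem_iSup_of_mem 1 (memB1 _ _))) (Submodule.mem_iSup_of_mem 2 (memB2 _ _))

theorem th_inj : Function.Injective th := by
  intro i j h
  fin_cases i <;> fin_cases j <;> simp [th] at h ⊢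

theorem hess_of {A B : End ℚ (Fin 5 → ℚ)} (h : ⨆ i, A.eigenspace (th i) = ⊤)
    (h0 : ∀ x ∈ A.eigenspace 0, ∃ y ∈ A.eigenspace 0, ∃ z ∈ A.eigenspace 1, B x = y + z) :
    Hess A B (d := 2) th := by
  intro i
  by_cases hi : i = 0
  · subst hi
    rintro _ ⟨x, hx, rfl⟩
    obtain ⟨y, hy, z, hz, e⟩ := h0 x hx
    rw [e]
    exact add_mem (Submodule.mem_iSup_of_mem 0 (Submodule.mem_iSup_of_mem (by simp) hy))
      (Submodule.mem_iSup_of_mem 1 (Submodule.mem_iSup_of_mem (by simp) hz))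
  · refine le_top.trans (h.ge.trans (iSup_mono fun j => le_iSup_of_le ?_ le_rfl))
    have := j.2
    have : i.val ≠ 0 := fun e => hi (Fin.ext e)
    omega

theorem irred : Irred fA fB := by
  intro W hA hB
  have ha : ∀ x ∈ W, fA x ∈ W := fun x hx => hA ⟨x, hx, rfl⟩
  have hb : ∀ x ∈ W, fB x ∈ W := fun x hx => hB ⟨x, hx, rfl⟩
  by_cases h : ∀ x ∈ W, 2 * x 0 - 2 * x 1 + x 4 = 0
  · left
    refine eq_bot_iff.2 fun x hx => ?_
    have h1 := h _ hx
    have h2 := h _ (ha _ hx)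
    have h3 := h _ (ha _ (hb _ hx))
    have h4 := h _ (ha _ (hb _ (ha _ hx)))
    have h5 := h _ (ha _ (hb _ (ha _ (ha _ hx))))
    simp [fA_apply, fB_apply] at h2 h3 h4 h5
    rw [Submodule.mem_bot]
    ext i; fin_cases i <;> simp <;> linarith
  · right
    push Not at h
    obtain ⟨x, hx, hc⟩ := h
    have e0 : ![1, 0, 0, 0, 0] ∈ W := by
      have := W.smul_mem (2 * x 0 - 2 * x 1 + x 4)⁻¹ (add_mem (sub_mem (hb _ (hb _ hx))
        (W.smul_mem 3 (hb _ hx))) (W.smul_mem 2 hx))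
      convert this using 1
      rw [eq_inv_smul_iff₀ hc]
      ext i; fin_cases i <;> simp [fB_apply] <;> ring
    refine eq_top_iff.2 fun y _ => ?_
    have e1 := ha _ e0
    have e2 := ha _ e1
    have e3 := hb _ e2
    have e4 := ha _ e3
    have := add_mem (add_mem (add_mem (add_mem
      (W.smul_mem (y 0 - 2 * y 1 + 2 * y 3 - y 2 + y 4) e0)
      (W.smul_mem (y 1 - 3 * y 3 + 3 * y 2 - 0 * y 4) e1)) (W.smul_mem (y 3 - 2 * y 2 - y 4) e2))
      (W.smul_mem (y 2 - y 4) e3)) (W.smul_mem (y 4) e4)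
    convert this using 1
    ext i; fin_cases i <;> simp [fA_apply, fB_apply] <;> ring

/-- A pair satisfying 1-4 with `d = δ = 2` and `dim V_0 ≠ dim V*_0`: item (c) fails. -/
theorem result : ∃ (n d : ℕ) (A B : End ℚ (Fin n → ℚ)) (θ θ' : Fin (d + 1) → ℚ), 0 < n ∧
    IsEigenOrdering A θ ∧ IsEigenOrdering B θ' ∧ Hess A B θ ∧ Hess B A θ' ∧ Irred A B ∧
    ∃ i, finrank ℚ (A.eigenspace (θ i)) ≠ finrank ℚ (B.eigenspace (θ' i)) := by
  refine ⟨5, 2, fA, fB, th, th, by norm_num, ⟨th_inj, fun i => ?_, topA⟩,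
    ⟨th_inj, fun i => ?_, topB⟩, hess_of topA fun x hx => ?_, hess_of topB fun x hx => ?_,
    irred, 0, ?_⟩
  · fin_cases i
    · exact hasEigenvalue_of_hasEigenvector ⟨memA0 1 0, by simp⟩
    · exact hasEigenvalue_of_hasEigenvector ⟨memA1 1 0, by simp⟩
    · exact hasEigenvalue_of_hasEigenvector ⟨memA2 1, by simp⟩
  · fin_cases i
    · exact hasEigenvalue_of_hasEigenvector ⟨memB0 1, by simp⟩
    · exact hasEigenvalue_of_hasEigenvector ⟨memB1 1 0, by simp⟩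
    · exact hasEigenvalue_of_hasEigenvector ⟨memB2 1 0, by simp⟩
  · refine ⟨_, memA0 (2 * x 3 - x 4) (2 * x 4 - x 3), _, memA1 (x 4) (x 3), ?_⟩
    rw [A0_eq hx, fB_apply]
    ext i; fin_cases i <;> simp
  · refine ⟨_, memB0 (x 0), _, memB1 (x 0) 0, ?_⟩
    rw [B0_eq hx, fA_apply]
    ext i; fin_cases i <;> simp; ring
  · have h1 : fB.eigenspace (th 0) = Submodule.span ℚ {![1, 0, 0, 0, 0]} := by
      refine le_antisymm (fun x hx => Submodule.mem_span_singleton.2 ⟨x 0, ?_⟩)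
        ((Submodule.span_singleton_le_iff_mem _ _).2 (memB0 1))
      rw [B0_eq hx]
      ext i; fin_cases i <;> simp
    rw [h1, finrank_span_singleton (by simp)]
    intro h
    obtain ⟨c, hc⟩ := (finrank_eq_one_iff_of_nonzero' (⟨_, memA0 1 0⟩ : fA.eigenspace (th 0))
      (fun e => by simpa using congrFun (congrArg Subtype.val e) 3)).1 h ⟨_, memA0 0 1⟩
    have := congrFun (congrArg Subtype.val hc) 4
    simp at this

end Pool.Agent.Results.MP_d2cf4a_al.Counterexample
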